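import Pool.Agent.Helper96.VF.GoalsB

/-!
# Packet VF-BR2 (MP_6829b3_nt): the bridge between the double series and the constant `V`
-/

set_option autoImplicit false

open Pool.Agent.Helper33.IR (rr ss om ze)
open Pool.Agent.Helper96.VF

namespace Pool.Agent.Helper82.VF

/-- series with bounded digits -/
theorem sumBd (f : ℕ → ℝ) (hf : ∀ n, |f n| ≤ 1) (q : ℝ) (hq : 1 < q) :
    Summable (fun n => f n / q ^ n) := by
  have hq0 : (0 : ℝ) < q := by linarith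
  have h1 : Summable (fun n : ℕ => (1 / q) ^ n) :=
    summable_geometric_of_lt_one (by positivity) (by rw [div_lt_one hq0]; exact hq)
  refine Summable.of_norm_bounded h1 (fun n => ?_)
  have hp : (0 : ℝ) < q ^ n := pow_pos hq0 n
  rw [Real.norm_eq_abs, abs_div, abs_of_pos hp, one_div, inv_pow, div_eq_mul_inv]
  have := mul_le_mul_of_nonneg_right (hf n) (inv_nonneg.mpr hp.le)
  linarith

/-- shift by one -/
theorem shift1 (f : ℕ → ℝ) (hf : ∀ n, |f n| ≤ 1) (q : ℝ) (hq : 1 < q) (h0 : f 0 = 0) :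
    HasSum (fun n => f (n + 1) / q ^ (n + 1)) (∑' n, f n / q ^ n) := by
  have h := (hasSum_nat_add_iff' (f := fun n => f n / q ^ n) 1).mpr (sumBd f hf q hq).hasSum
  simpa [h0] using h

/-- shift by two -/
theorem shift2 (f : ℕ → ℝ) (hf : ∀ n, |f n| ≤ 1) (q : ℝ) (hq : 1 < q) (h0 : f 0 = 0)
    (h1 : f 1 = 0) :
    HasSum (fun n => f (n + 2) / q ^ (n + 2)) (∑' n, f n / q ^ n) := by
  have h := (hasSum_nat_add_iff' (f := fun n => f n / q ^ n) 2).mpr (sumBd f hf q hq).hasSum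
  simpa [h0, h1, Finset.sum_range_succ] using h

/-- digits `om` -/
noncomputable def a1 (b : ℕ) : ℝ := if rr b < 2 then 1 / 2 else 0
noncomputable def a2 (b : ℕ) : ℝ := if 2 < rr b then 1 else 0
noncomputable def a3 (b : ℕ) : ℝ := if 8 / 5 ≤ rr b ∧ rr b < 2 then 1 / 10 else 0
noncomputable def a4 (b : ℕ) : ℝ := if 1 < rr b ∧ rr b ≤ 5 / 4 then 1 / 4 else 0

/-- digits `ze` -/
noncomputable def z1 (j : ℕ) : ℝ := if 1 < ss j ∧ ss j < 3 / 2 then 1 / 2 else 0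
noncomputable def z2 (j : ℕ) : ℝ := if 2 < ss j then 1 else 0
noncomputable def z3 (j : ℕ) : ℝ := if 10 / 9 < ss j ∧ ss j < 4 / 3 then 1 else 0
noncomputable def z4 (j : ℕ) : ℝ := if 3 / 2 < ss j ∧ ss j ≤ 9 / 5 then 1 / 20 else 0

theorem a1_bd (b : ℕ) : |a1 b| ≤ 1 := by unfold a1; split_ifs <;> norm_num [abs_le]
theorem a2_bd (b : ℕ) : |a2 b| ≤ 1 := by unfold a2; split_ifs <;> norm_num [abs_le]
theorem a3_bd (b : ℕ) : |a3 b| ≤ 1 := by unfold a3; split_ifs <;> norm_num [abs_le]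
theorem a4_bd (b : ℕ) : |a4 b| ≤ 1 := by unfold a4; split_ifs <;> norm_num [abs_le]
theorem z1_bd (b : ℕ) : |z1 b| ≤ 1 := by unfold z1; split_ifs <;> norm_num [abs_le]
theorem z2_bd (b : ℕ) : |z2 b| ≤ 1 := by unfold z2; split_ifs <;> norm_num [abs_le]
theorem z3_bd (b : ℕ) : |z3 b| ≤ 1 := by unfold z3; split_ifs <;> norm_num [abs_le]
theorem z4_bd (b : ℕ) : |z4 b| ≤ 1 := by unfold z4; split_ifs <;> norm_num [abs_le]

theorem W_eq (b : ℕ) : (Pool.Agent.Helper33.IR.W b : ℝ) = a1 b - a2 b - a3 b + a4 b := by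
  unfold Pool.Agent.Helper33.IR.W om a1 a2 a3 a4
  push_cast
  split_ifs <;> norm_num

theorem Z_eq (j : ℕ) : (Pool.Agent.Helper33.IR.Z j : ℝ) = z1 j - z2 j - z3 j + z4 j := by
  unfold Pool.Agent.Helper33.IR.Z ze z1 z2 z3 z4
  push_cast
  split_ifs <;> norm_num

theorem rr0 : rr 0 = 1 := by
  unfold rr; norm_num

theorem ss0 : ss 0 = 1 := by
  unfold ss; norm_num

theorem ss1 : ss 1 = 4 / 3 := by
  unfold ss
  have : Nat.log 3 (4 ^ 1) = 1 := by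
    rw [Nat.log_eq_iff (by norm_num)]; norm_num
  rw [this]; norm_num

theorem a2_0 : a2 0 = 0 := by unfold a2; rw [rr0]; norm_num
theorem a4_0 : a4 0 = 0 := by unfold a4; rw [rr0]; norm_num
theorem z2_0 : z2 0 = 0 := by unfold z2; rw [ss0]; norm_num
theorem z3_0 : z3 0 = 0 := by unfold z3; rw [ss0]; norm_num
theorem z3_1 : z3 1 = 0 := by unfold z3; rw [ss1]; norm_num

theorem dA1 (hA : BRA) (b : ℕ) : dA 2 4 2 3 b / 3 ^ b = a1 b / 3 ^ b - a2 (b + 1) / 3 ^ (b + 1) := by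
  have h := hA b
  unfold dA a1 a2
  simp only [h.1, h.2.1, pow_succ]
  have hp : (0 : ℝ) < 3 ^ b := by positivity
  push_cast
  split_ifs <;> field_simp <;> norm_num

theorem dA2 (hA : BRA) (b : ℕ) : dA 16 20 10 12 b / 3 ^ b = a3 b / 3 ^ b - a4 (b + 1) / 3 ^ (b + 1) := by
  have h := hA b
  unfold dA a3 a4
  simp only [h.2.2.1, h.2.2.2, pow_succ]
  have hp : (0 : ℝ) < 3 ^ b := by positivity
  push_cast
  split_ifs <;> field_simp <;> norm_num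

theorem dB1 (hB : BRB) (j : ℕ) : dB 2 4 2 3 j / 4 ^ j = z1 j / 4 ^ j - z2 (j + 1) / 4 ^ (j + 1) := by
  have h := hB j
  unfold dB z1 z2
  simp only [h.1, h.2.1, pow_succ]
  have hp : (0 : ℝ) < 4 ^ j := by positivity
  push_cast
  split_ifs <;> field_simp <;> norm_num

theorem dB2 (hB : BRB) (j : ℕ) :
    dB 16 20 10 12 j / 4 ^ j = z3 (j + 2) / 4 ^ (j + 2) - z4 j / 4 ^ j := by
  have h := hB j
  unfold dB z3 z4
  simp only [h.2.2.1, h.2.2.2, pow_add]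
  have hp : (0 : ℝ) < 4 ^ j := by positivity
  push_cast
  split_ifs <;> field_simp <;> norm_num

theorem par1 : Par 2 4 2 3 := by unfold Par; norm_num

theorem par2 : Par 16 20 10 12 := by unfold Par; norm_num

theorem trm_eq (x : ℕ × ℕ) : trm x = mm 2 4 2 3 x - mm 16 20 10 12 x := by
  unfold trm mm
  push_cast
  rfl

theorem sA (hA : BRA) :
    (∑' b : ℕ, dA 2 4 2 3 b / 3 ^ b) - (∑' b : ℕ, dA 16 20 10 12 b / 3 ^ b) =
      ∑' b : ℕ, (Pool.Agent.Helper33.IR.W b : ℝ) / 3 ^ b := by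
  have h3 : (1 : ℝ) < 3 := by norm_num
  have e1 := (sumBd a1 a1_bd 3 h3).hasSum.sub (shift1 a2 a2_bd 3 h3 a2_0)
  have e2 := (sumBd a3 a3_bd 3 h3).hasSum.sub (shift1 a4 a4_bd 3 h3 a4_0)
  have e3 := (((sumBd a1 a1_bd 3 h3).hasSum.sub (sumBd a2 a2_bd 3 h3).hasSum).sub
    (sumBd a3 a3_bd 3 h3).hasSum).add (sumBd a4 a4_bd 3 h3).hasSum
  have f1 : (∑' b : ℕ, dA 2 4 2 3 b / 3 ^ b) = (∑' b, a1 b / 3 ^ b) - ∑' b, a2 b / 3 ^ b := by
    rw [← e1.tsum_eq]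
    exact tsum_congr (dA1 hA)
  have f2 : (∑' b : ℕ, dA 16 20 10 12 b / 3 ^ b) = (∑' b, a3 b / 3 ^ b) - ∑' b, a4 b / 3 ^ b := by
    rw [← e2.tsum_eq]
    exact tsum_congr (dA2 hA)
  have f3 : (∑' b : ℕ, (Pool.Agent.Helper33.IR.W b : ℝ) / 3 ^ b) =
      (∑' b, a1 b / 3 ^ b) - (∑' b, a2 b / 3 ^ b) - (∑' b, a3 b / 3 ^ b) +
        ∑' b, a4 b / 3 ^ b := by
    rw [← e3.tsum_eq]
    refine tsum_congr (fun b => ?_)
    rw [W_eq]
    ring
  rw [f1, f2, f3]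
  ring

theorem sB (hB : BRB) :
    (∑' j : ℕ, dB 2 4 2 3 j / 4 ^ j) - (∑' j : ℕ, dB 16 20 10 12 j / 4 ^ j) =
      ∑' j : ℕ, (Pool.Agent.Helper33.IR.Z j : ℝ) / 4 ^ j := by
  have h4 : (1 : ℝ) < 4 := by norm_num
  have e1 := (sumBd z1 z1_bd 4 h4).hasSum.sub (shift1 z2 z2_bd 4 h4 z2_0)
  have e2 := (shift2 z3 z3_bd 4 h4 z3_0 z3_1).sub (sumBd z4 z4_bd 4 h4).hasSum
  have e3 := (((sumBd z1 z1_bd 4 h4).hasSum.sub (sumBd z2 z2_bd 4 h4).hasSum).sub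
    (sumBd z3 z3_bd 4 h4).hasSum).add (sumBd z4 z4_bd 4 h4).hasSum
  have f1 : (∑' b : ℕ, dB 2 4 2 3 b / 4 ^ b) = (∑' b, z1 b / 4 ^ b) - ∑' b, z2 b / 4 ^ b := by
    rw [← e1.tsum_eq]
    exact tsum_congr (dB1 hB)
  have f2 : (∑' b : ℕ, dB 16 20 10 12 b / 4 ^ b) = (∑' b, z3 b / 4 ^ b) - ∑' b, z4 b / 4 ^ b := by
    rw [← e2.tsum_eq]
    exact tsum_congr (dB2 hB)
  have f3 : (∑' b : ℕ, (Pool.Agent.Helper33.IR.Z b : ℝ) / 4 ^ b) =
      (∑' b, z1 b / 4 ^ b) - (∑' b, z2 b / 4 ^ b) - (∑' b, z3 b / 4 ^ b) +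
        ∑' b, z4 b / 4 ^ b := by
    rw [← e3.tsum_eq]
    refine tsum_congr (fun b => ?_)
    rw [Z_eq]
    ring
  rw [f1, f2, f3]
  ring

/-- **BR2**: the double series equals the constant `V` -/
theorem gBR2 (h1 : BR1) (hA : BRA) (hB : BRB) (hD : DBLA) : BR2 := by
  unfold BR2 Pool.Agent.Helper33.IR.V
  obtain ⟨-, -, p3⟩ := h1 2 4 2 3 par1
  obtain ⟨-, -, q3⟩ := h1 16 20 10 12 par2
  have s1 := (hD 2 4 2 3 par1).1
  have s2 := (hD 16 20 10 12 par2).1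
  have e : (∑' x : ℕ × ℕ, trm x) = (∑' x, mm 2 4 2 3 x) - ∑' x, mm 16 20 10 12 x := by
    rw [← s1.tsum_sub s2]
    exact tsum_congr trm_eq
  rw [e, p3, q3, ← sA hA, ← sB hB]
  ring

end Pool.Agent.Helper82.VF
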